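import Pool.Agent.Q89.AL.C

/-!
# MP_5ac32f_an: linear manifolds which are hyperinvariant, and algebraic reflexivity

Let `T` be an operator on a reflexive Banach space without nontrivial closed hyperinvariant subspace.
Then the (not necessarily closed) linear manifolds which are hyperinvariant for `T` determine the
commutant: every operator `Y` which maps all of them into themselves commutes with `T`. More
precisely, if `Y` does not commute with `T` then `Y x` is a value `C x`, `C` in the commutant, for a
meager set of vectors `x` only. The same holds for arbitrary algebras without nontrivial closed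
invariant subspaces, with the bicommutant.

Proof. For a polynomial `p(T)` of degree at most two, the operator `Y_p = p(T)⁻¹ Y p(T)` is everywhere
defined and bounded. By a category argument and duality (here reflexivity is used), the norms of
these operators are bounded uniformly in `p`. By the theorem of Liouville, `[[Y, T], T] = 0`. As this
holds for products as well, `[Y, T] C [Y, T] = 0` for all `C` in the algebra, so `[Y, T] = 0`.
-/

set_option autoImplicit false

namespace Pool.Agent.Results.MP_5ac32f_an.AlgebraicReflexivity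

variable {X : Type} [NormedAddCommGroup X] [NormedSpace ℂ X]

/-- All operators of the set `A` map the linear manifold `M` into itself. -/
def Invariant (A : Set (X →L[ℂ] X)) (M : Submodule ℂ X) : Prop := ∀ C ∈ A, ∀ x ∈ M, C x ∈ M

/-- There is a closed invariant subspace other than `0` and `X`. -/
def HasClosedInvariant (A : Set (X →L[ℂ] X)) : Prop :=
  ∃ M : Submodule ℂ X, Invariant A M ∧ IsClosed (M : Set X) ∧ M ≠ ⊥ ∧ M ≠ ⊤

/-- `Y x` is a limit of vectors `C x`, where `C` runs through a bounded part of `A`. -/
def Approximable (A : Set (X →L[ℂ] X)) (Y : X →L[ℂ] X) (x : X) : Prop :=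
  ∃ k : ℝ, ∀ ε > 0, ∃ C ∈ A, ‖C‖ ≤ k ∧ ‖C x - Y x‖ < ε

/-- Let `X` be a reflexive complex Banach space.
(1) An operator `T` without nontrivial closed hyperinvariant subspaces: for all operators `Y` which do
not commute with `T`, the set of all `x` such that `Y x = C x` for some `C` in the commutant of `T`
is meager, and there is a linear manifold which is invariant under the commutant of `T` and not
under `Y`.
(2) An algebra `A` of operators without nontrivial closed invariant subspaces: for all operators `Y`
outside of the bicommutant of `A`, the set of all `x` with `Approximable A Y x` is meager. -/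
theorem result [CompleteSpace X]
    (hX : ∀ ξ : (X →L[ℂ] ℂ) →L[ℂ] ℂ, ∃ x : X, ∀ f : X →L[ℂ] ℂ, ξ f = f x) :
    (∀ T : X →L[ℂ] X, HasClosedInvariant (Set.centralizer {T}) ∨
      ∀ Y : X →L[ℂ] X, Y * T ≠ T * Y →
        IsMeagre {x : X | ∃ C ∈ Set.centralizer {T}, C x = Y x} ∧
        ∃ M : Submodule ℂ X, Invariant (Set.centralizer {T}) M ∧ ¬ Invariant {Y} M) ∧
    (∀ A : Subalgebra ℂ (X →L[ℂ] X), HasClosedInvariant (A : Set (X →L[ℂ] X)) ∨
      ∀ Y : X →L[ℂ] X, Y ∉ Set.centralizer (Set.centralizer (A : Set (X →L[ℂ] X))) →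
        IsMeagre {x : X | Approximable (A : Set (X →L[ℂ] X)) Y x}) := by
  have trans : ∀ A : Set (X →L[ℂ] X), ¬ HasClosedInvariant A → Pool.Agent.Q89.AL.Trans A := by
    intro A hA V hV hAV
    by_contra hcon
    push Not at hcon
    exact hA ⟨V, hAV, hV, hcon.1, hcon.2⟩
  have two : ∀ A : Subalgebra ℂ (X →L[ℂ] X), HasClosedInvariant (A : Set (X →L[ℂ] X)) ∨
      ∀ Y : X →L[ℂ] X, Y ∉ Set.centralizer (Set.centralizer (A : Set (X →L[ℂ] X))) →
        IsMeagre {x : X | Approximable (A : Set (X →L[ℂ] X)) Y x} := by
    intro A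
    by_cases hA : HasClosedInvariant (A : Set (X →L[ℂ] X))
    · exact Or.inl hA
    · refine Or.inr fun Y hY => ?_
      by_contra hmea
      refine hY fun T hT => ?_
      exact (Pool.Agent.Q89.AL.main hX A (trans _ hA) (T := T) (Y := Y)
        (fun C hC => hT C hC) hmea).symm
  refine ⟨fun T => ?_, two⟩
  rcases two (Subalgebra.centralizer ℂ {T}) with h | h
  · exact Or.inl h
  · refine Or.inr fun Y hY => ?_
    have hYn : Y ∉ Set.centralizer (Set.centralizer
        ((Subalgebra.centralizer ℂ {T} : Subalgebra ℂ (X →L[ℂ] X)) : Set (X →L[ℂ] X))) := by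
      intro hmem
      refine hY (hmem T fun C hC => ?_).symm
      exact (hC T rfl).symm
    have hme := h Y hYn
    have hsub : {x : X | ∃ C ∈ Set.centralizer {T}, C x = Y x} ⊆ {x : X | Approximable
        ((Subalgebra.centralizer ℂ {T} : Subalgebra ℂ (X →L[ℂ] X)) : Set (X →L[ℂ] X)) Y x} := by
      rintro x ⟨C, hC, hx⟩
      exact ⟨‖C‖, fun ε hε => ⟨C, hC, le_rfl, by rw [hx, sub_self, norm_zero]; exact hε⟩⟩
    refine ⟨hme.mono hsub, ?_⟩
    by_contra hcon
    push Not at hcon
    refine Pool.Agent.Q89.AL.univ_nonmeagre (fun x => ?_) hme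
    let O : Submodule ℂ X := (Subalgebra.toSubmodule (Subalgebra.centralizer ℂ {T})).map
      ((ContinuousLinearMap.apply ℂ X x : (X →L[ℂ] X) →L[ℂ] X) : (X →L[ℂ] X) →ₗ[ℂ] X)
    have hO : Invariant (Set.centralizer {T}) O := by
      rintro C hC _ ⟨C', hC', rfl⟩
      exact ⟨C * C', (Subalgebra.centralizer ℂ {T}).mul_mem hC hC', rfl⟩
    have h1 : x ∈ O := ⟨1, (Subalgebra.centralizer ℂ {T}).one_mem, rfl⟩
    obtain ⟨C, hC, hCx⟩ := hcon O hO Y rfl x h1
    have hCx' : C x = Y x := hCx
    exact ⟨‖C‖, fun ε hε => ⟨C, hC, le_rfl, by rw [hCx', sub_self, norm_zero]; exact hε⟩⟩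

end Pool.Agent.Results.MP_5ac32f_an.AlgebraicReflexivity
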