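import Pool.Agent.Q62.RQ.Asm
import Pool.Agent.Y891.NK.AREA

/-!
Infinite-rank perturbations `D + t K` of diagonal operators on Banach spaces have nontrivial
hyperinvariant subspaces for almost every coupling constant `t`.
-/

set_option autoImplicit false

namespace Pool.Agent.Results.MP_5ac32f_an.GenericCouplings

open MeasureTheory Set Metric Filter Topology
open scoped ENNReal NNReal

/-- The measure `m` has no atoms, and on every disc `|t| < R` it is finite and
`∫ log⁺ (1 / |t - s|) dm(t)` is bounded in `s ∈ ℂ`. -/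
def BoundedPotential (m : Measure ℂ) : Prop :=
  (∀ s : ℂ, m {s} = 0) ∧
  ∀ R : ℝ, m (ball (0:ℂ) R) ≠ ⊤ ∧ ∃ C : ℝ≥0, ∀ s : ℂ,
    ∫⁻ t in ball (0:ℂ) R, ENNReal.ofReal (Real.posLog ‖t - s‖⁻¹) ∂m ≤ C

/-- `T` has a closed subspace, neither `{0}` nor the whole space, which is invariant under every
bounded operator commuting with `T`. -/
def HasHyperinvariant {X : Type} [NormedAddCommGroup X] [NormedSpace ℂ X] (T : X →L[ℂ] X) : Prop :=
  ∃ V : Submodule ℂ X, IsClosed (V : Set X) ∧ V ≠ ⊥ ∧ V ≠ ⊤ ∧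
    ∀ Q : X →L[ℂ] X, Q * T = T * Q → ∀ v ∈ V, Q v ∈ V

/-- Let `e n` be bounded vectors and `ε n` bounded functionals of a complex Banach space with
`ε m (e n) = δ m n`, let `D` be an operator which is diagonal with respect to them, with
eigenvalues `lam n`, and let `K` be the operator of an absolutely summable matrix `k`. If the
eigenvalues have two different cluster points, then `D + t K` has a nontrivial closed hyperinvariant
subspace for almost every `t` with respect to every measure with bounded potential, for almost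
every complex number `t` and for almost every real number `t`. -/
theorem result (X : Type) [NormedAddCommGroup X] [NormedSpace ℂ X] [CompleteSpace X]
    (e : ℕ → X) (ε : ℕ → X →L[ℂ] ℂ) (C : ℝ) (D K : X →L[ℂ] X) (lam : ℕ → ℂ) (k : ℕ → ℕ → ℂ)
    (c₁ c₂ : ℂ)
    (he : ∀ n, ‖e n‖ ≤ C) (hε : ∀ n, ‖ε n‖ ≤ C)
    (hbi : ∀ m n, ε m (e n) = if m = n then 1 else 0)
    (hD : ∀ n, D (e n) = lam n • e n) (hD' : ∀ n x, ε n (D x) = lam n * ε n x)
    (hk : Summable fun p : ℕ × ℕ => ‖k p.1 p.2‖)
    (hK : ∀ x, HasSum (fun p : ℕ × ℕ => (k p.1 p.2 * ε p.2 x) • e p.1) (K x))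
    (hc : c₁ ≠ c₂) (h₁ : MapClusterPt c₁ atTop lam) (h₂ : MapClusterPt c₂ atTop lam) :
    (∀ m : Measure ℂ, BoundedPotential m → ∀ᵐ t ∂m, HasHyperinvariant (D + t • K)) ∧
    (∀ᵐ t : ℂ, HasHyperinvariant (D + t • K)) ∧
    (∀ᵐ t : ℝ, HasHyperinvariant (D + (t : ℂ) • K)) := by
  have main : ∀ m : Measure ℂ, Pool.Agent.Y283.NK.LogBd m →
      ∀ᵐ t ∂m, HasHyperinvariant (D + t • K) := by
    intro m hm
    have h1 : ∀ n : ℕ, ∀ᵐ t ∂(m.restrict (ball (0:ℂ) n)), HasHyperinvariant (D + t • K) :=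
      fun n => Pool.Agent.Q62.RQ.main1 e ε C he hε hbi D K lam hD
        (fun n => by
          ext x
          simpa using hD' n x) k hk hK m hm n c₁ c₂ hc h₁ h₂
    have h2 := (ae_restrict_iUnion_iff (μ := m) (fun n : ℕ => ball (0:ℂ) n)
      (fun t => HasHyperinvariant (D + t • K))).mpr h1
    rwa [Metric.iUnion_ball_nat, Measure.restrict_univ] at h2
  refine ⟨?_, ?_, ?_⟩
  · intro m hm
    refine main m fun R => ?_
    obtain ⟨h0, hm⟩ := hm
    obtain ⟨h1, C, hC⟩ := hm R
    refine ⟨C + (m (ball (0:ℂ) R)).toNNReal, ?_, fun s => ?_⟩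
    · rw [ENNReal.coe_add, ENNReal.coe_toNNReal h1]
      exact le_add_self
    · calc ∫⁻ t in ball (0:ℂ) R, Pool.Agent.Y283.NK.lm ‖t - s‖ ∂m
          = ∫⁻ t in ball (0:ℂ) R, ENNReal.ofReal (Real.posLog ‖t - s‖⁻¹) ∂m := by
            refine lintegral_congr_ae (ae_restrict_of_ae ?_)
            have h2 : ∀ᵐ t ∂m, t ≠ s := by
              rw [ae_iff]
              simpa using h0 s
            filter_upwards [h2] with t ht
            unfold Pool.Agent.Y283.NK.lm
            rw [if_neg (by simpa [sub_eq_zero] using ht)]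
        _ ≤ C := hC s
        _ ≤ _ := by rw [ENNReal.coe_add]; exact le_self_add
  · exact main volume Pool.Agent.Y891.NK.main_vol.1
  · have h := main (Measure.map (fun t : ℝ => (t : ℂ)) volume) Pool.Agent.Y891.NK.main_vol.2
    exact ae_of_ae_map Complex.continuous_ofReal.measurable.aemeasurable h

end Pool.Agent.Results.MP_5ac32f_an.GenericCouplings
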