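import Mathlib
import Pool.Agent.Q100.WR5

/-!
# MP_5ac32f_an: operators with a multiple without dense numerical orbits have hyperinvariant
subspaces
-/

set_option autoImplicit false

open Set

namespace Pool.Agent.Results.MP_5ac32f_an.NumericalOrbits

/-- `T` has a closed hyperinvariant subspace other than `0` and the whole space. -/
def HasHyperinvariant {X : Type*} [NormedAddCommGroup X] [NormedSpace ℂ X] (T : X →L[ℂ] X) :
    Prop :=
  ∃ M : Submodule ℂ X, IsClosed (M : Set X) ∧ M ≠ ⊥ ∧ M ≠ ⊤ ∧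
    ∀ A : X →L[ℂ] X, A * T = T * A → ∀ x ∈ M, A x ∈ M

/-- The sequence `c ^ n * f (T ^ n x)`, `n = 0, 1, 2, …`, is dense in `ℂ` for some `x`, `f`. -/
def DenseNumericalOrbit {X : Type*} [NormedAddCommGroup X] [NormedSpace ℂ X] (T : X →L[ℂ] X)
    (c : ℂ) : Prop :=
  ∃ (x : X) (f : X →L[ℂ] ℂ), Dense (range fun n : ℕ => c ^ n * f ((T ^ n) x))

theorem spectralRadius_smul {A : Type*} [NormedRing A] [NormedAlgebra ℂ A] (a : A) {c : ℂ}
    (hc : c ≠ 0) : spectralRadius ℂ (c • a) = (‖c‖₊ : ENNReal) * spectralRadius ℂ a := by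
  have h1 : spectrum ℂ (c • a) = (fun z : ℂ => c * z) '' spectrum ℂ a :=
    spectrum.unit_smul_eq_smul a (Units.mk0 c hc)
  unfold spectralRadius
  rw [h1, iSup_image]
  simp_rw [nnnorm_mul, ENNReal.coe_mul, ENNReal.mul_iSup]

/-- **Main result.** Let `T` be a bounded operator on a complex Banach space which is not
quasinilpotent. If, for some complex number `c` with `sup ‖(c T)ⁿ‖ = ∞` (for instance for some
`c` with `|c| r(T) > 1`), no sequence `cⁿ f(Tⁿ x)` is dense in `ℂ`, then `T` has an eigenvalue of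
modulus `r(T)`; in particular `T` is a multiple of the identity or has a nontrivial closed
hyperinvariant subspace. -/
theorem result (X : Type*) [NormedAddCommGroup X] [NormedSpace ℂ X] [CompleteSpace X]
    (T : X →L[ℂ] X) (c : ℂ)
    (hc : (¬ ∃ C : ℝ, ∀ n : ℕ, ‖(c • T) ^ n‖ ≤ C) ∨ 1 < (‖c‖₊ : ENNReal) * spectralRadius ℂ T)
    (h : ¬ DenseNumericalOrbit T c) :
    (∃ μ : ℂ, (‖μ‖₊ : ENNReal) = spectralRadius ℂ T ∧ ∃ p : X, p ≠ 0 ∧ T p = μ • p) ∧
    ((∃ μ : ℂ, T = μ • (1 : X →L[ℂ] X)) ∨ HasHyperinvariant T) := by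
  have hpow : ∀ n, (c • T) ^ n = c ^ n • T ^ n := fun n => smul_pow c T n
  have hub : ¬ ∃ C : ℝ, ∀ n : ℕ, ‖(c • T) ^ n‖ ≤ C := by
    rcases hc with hc | hc
    · exact hc
    · rintro ⟨C, hC⟩
      have hT0 : ∃ z ∈ spectrum ℂ T, (‖z‖₊ : ENNReal) = spectralRadius ℂ T := by
        rcases subsingleton_or_nontrivial X with hX | hX
        · exfalso
          have : T = 0 := Subsingleton.elim _ _
          rw [this, spectrum.spectralRadius_zero, mul_zero] at hc
          exact absurd hc (by simp)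
        · exact spectrum.exists_nnnorm_eq_spectralRadius T
      obtain ⟨z, hz, hz'⟩ := hT0
      rw [← hz', ← ENNReal.coe_mul] at hc
      have hc1 : (1 : ℝ) < ‖c‖ * ‖z‖ := by
        have : (1 : NNReal) < ‖c‖₊ * ‖z‖₊ := by exact_mod_cast hc
        exact_mod_cast this
      have hc0 : c ≠ 0 := by
        rintro rfl
        rw [norm_zero, zero_mul] at hc1
        linarith
      have h2 : ∀ n : ℕ, (‖c‖ * ‖z‖) ^ n ≤ C * ‖(1 : X →L[ℂ] X)‖ := by
        intro n
        have h3 : z ^ n ∈ spectrum ℂ (T ^ n) := spectrum.pow_mem_pow T n hz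
        have h4 := spectrum.norm_le_norm_mul_of_mem h3
        rw [norm_pow] at h4
        have h5 : ‖(c • T) ^ n‖ = ‖c‖ ^ n * ‖T ^ n‖ := by rw [hpow, norm_smul, norm_pow]
        have h6 := hC n
        rw [h5] at h6
        calc (‖c‖ * ‖z‖) ^ n = ‖c‖ ^ n * ‖z‖ ^ n := mul_pow _ _ _
          _ ≤ ‖c‖ ^ n * (‖T ^ n‖ * ‖(1 : X →L[ℂ] X)‖) := by gcongr
          _ = ‖c‖ ^ n * ‖T ^ n‖ * ‖(1 : X →L[ℂ] X)‖ := by ring
          _ ≤ C * ‖(1 : X →L[ℂ] X)‖ := by gcongr
      obtain ⟨n, hn⟩ := pow_unbounded_of_one_lt (C * ‖(1 : X →L[ℂ] X)‖) hc1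
      linarith [h2 n]
  have hc0 : c ≠ 0 := by
    rintro rfl
    refine hub ⟨‖(1 : X →L[ℂ] X)‖, fun n => ?_⟩
    rw [hpow]
    rcases Nat.eq_zero_or_pos n with rfl | hn
    · simp
    · rw [zero_pow hn.ne', zero_smul, norm_zero]
      exact norm_nonneg _
  have hND : Pool.Agent.Q100.WR.NoDense (c • T) := by
    intro x f hd
    refine h ⟨x, f, ?_⟩
    refine (congrArg Dense (congrArg range (funext fun n => ?_))).mp hd
    rw [hpow, smul_apply, map_smul, smul_eq_mul]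
  push Not at hub
  obtain ⟨μ, hμ1, hμ, p, hp0, hp⟩ := Pool.Agent.Q100.WR.exists_eigenvalue hND hub
  have hTp : T p = (c⁻¹ * μ) • p := by
    have h1 : c • T p = μ • p := hp
    rw [mul_smul, ← h1, inv_smul_smul₀ hc0]
  have hsr : (‖c⁻¹ * μ‖₊ : ENNReal) = spectralRadius ℂ T := by
    have hcn : (‖c‖₊ : ENNReal) ≠ 0 := by simpa using hc0
    rw [nnnorm_mul, ENNReal.coe_mul, hμ, nnnorm_inv, spectralRadius_smul T hc0, ← mul_assoc,
      ENNReal.coe_inv (by simpa using hc0), ENNReal.inv_mul_cancel hcn ENNReal.coe_ne_top,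
      one_mul]
  refine ⟨⟨c⁻¹ * μ, hsr, p, hp0, hTp⟩, ?_⟩
  by_cases hs : ∃ ν : ℂ, T = ν • (1 : X →L[ℂ] X)
  · exact Or.inl hs
  · refine Or.inr ⟨LinearMap.ker ((T - (c⁻¹ * μ) • (1 : X →L[ℂ] X) : X →L[ℂ] X) : X →ₗ[ℂ] X),
      ContinuousLinearMap.isClosed_ker _, ?_, ?_, ?_⟩
    · intro hbot
      have : p ∈ LinearMap.ker ((T - (c⁻¹ * μ) • (1 : X →L[ℂ] X) : X →L[ℂ] X) : X →ₗ[ℂ] X) := by
        show (T - (c⁻¹ * μ) • (1 : X →L[ℂ] X)) p = 0
        rw [sub_apply, smul_apply, hTp]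
        exact sub_self _
      rw [hbot] at this
      exact hp0 this
    · intro htop
      refine hs ⟨c⁻¹ * μ, ContinuousLinearMap.ext fun x => ?_⟩
      have : x ∈ LinearMap.ker ((T - (c⁻¹ * μ) • (1 : X →L[ℂ] X) : X →L[ℂ] X) : X →ₗ[ℂ] X) := by
        rw [htop]; trivial
      exact sub_eq_zero.1 this
    · intro A hA x hx
      have hx' : T x = (c⁻¹ * μ) • x := sub_eq_zero.1 hx
      have hAT : T (A x) = A (T x) := (congrArg (fun B : X →L[ℂ] X => B x) hA).symm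
      show (T - (c⁻¹ * μ) • (1 : X →L[ℂ] X)) (A x) = 0
      rw [sub_apply, hAT, hx', map_smul]
      exact sub_self _

end Pool.Agent.Results.MP_5ac32f_an.NumericalOrbits
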