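import Pool.Agent.Q89.HL.L6
import Pool.Agent.Q89.HL.L7

/-!
# MP_5ac32f_an: hyperinvariant subspaces of typical contractions of `L_p`, positive or not

Let `1 < p < ∞` and let `L_p(μ)` be separable and infinite-dimensional, for example `L_p[0, 1]`. The
contractions of `L_p(μ)`, the contractions which map real functions to real functions, and the
positive contractions, form three Polish spaces for the strong* operator topology. In each of them a
typical element (all elements outside a meager set) has nontrivial closed hyperinvariant subspaces,
and these even come arbitrarily close to every vector.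

Proof. For vectors `x` and functionals `y` let `ρ(T; x, y)` be the norm of the functional
`S ↦ y (S x)` on the commutant of `T`. Let `T` be given by a matrix `A` with respect to the
normalized indicator functions of disjoint sets `B_i` and the corresponding functionals; such `T`
are dense in the class, and `A` may be assumed to be diagonalisable (add a small diagonal matrix
with positive entries). The Hahn-Banach theorem gives `u_i`, `v_i` in the block with
`y (S x) = ∑ i, v_i (S u_i)` for all `S` in the commutant, `∑ ‖u_i‖ ^ p ≤ ρ`, `∑ ‖v_i‖ ^ q ≤ ρ`.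
Remove from the `B_i` a set of small measure and place many copies of the block on tiny sets or far
away. Let `T'` be `A ⊗ 1 + 1 ⊗ J` with a weighted shift `J` with weights `δ, …, δ, w`: it is again in
the class, and close to `T`. Its commutant consists of matrices of blocks which commute with `A` and
are almost constant on the diagonal, with off-diagonal blocks at most `δ / w`, hence `ρ` is almost
`0` for `T'`, `x + ∑ u_i`, `y - ∑ v_i`, with the `i`-th summand on the `i`-th copy. A Baire category
argument gives for typical `T` a pair `x`, `y` with `y ≠ 0`, `x` close to a given vector, and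
`y (S x) = 0` for all `S` in the commutant of `T`. That the finite blocks approximate all
functionals (so that the dual is separable) follows from the smoothness of `t ↦ |1 + t| ^ p`.
-/

set_option autoImplicit false
open MeasureTheory TopologicalSpace
open scoped ENNReal

namespace Pool.Agent.Results.MP_5ac32f_an.PositiveContractionsLp

/-- The contractions `T` which preserve the property `Q`: if `f` has `Q` then so has `T f`. -/
def ContrPres {E : Type} [NormedAddCommGroup E] [NormedSpace ℂ E] (Q : E → Prop) :
    Set (E →L[ℂ] E) :=
  {T | ‖T‖ ≤ 1 ∧ ∀ f, Q f → Q (T f)}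

variable {Ω : Type} [MeasurableSpace Ω] {p : ℝ≥0∞} {μ : Measure Ω}

/-- Real functions: almost all values are real. -/
def IsReal (f : Lp ℂ p μ) : Prop := ∀ᵐ ω ∂μ, (f ω).im = 0

/-- Nonnegative functions: almost all values are real and nonnegative. -/
def IsNonneg (f : Lp ℂ p μ) : Prop := ∀ᵐ ω ∂μ, 0 ≤ (f ω).re ∧ (f ω).im = 0

/-- The strong* operator topology on a set of operators: pointwise convergence of the operators and
of their adjoints. -/
@[reducible] noncomputable def SOTStar {E : Type} [NormedAddCommGroup E] [NormedSpace ℂ E]
    (C : Set (E →L[ℂ] E)) : TopologicalSpace C :=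
  TopologicalSpace.induced (fun T : C => ((fun x : E => (T : E →L[ℂ] E) x),
    (fun y : StrongDual ℂ E => y.comp (T : E →L[ℂ] E)))) instTopologicalSpaceProd

/-- Arbitrarily close to every vector there is a vector which lies in a closed subspace, neither
`{0}` nor the whole space, which is invariant under all bounded operators commuting with `T`. -/
def DenselyHyperinvariant {E : Type} [NormedAddCommGroup E] [NormedSpace ℂ E]
    (T : E →L[ℂ] E) : Prop :=
  ∀ (x₀ : E) (ε : ℝ), 0 < ε → ∃ M : Submodule ℂ E, IsClosed (M : Set E) ∧ M ≠ ⊥ ∧ M ≠ ⊤ ∧
    (∀ S : E →L[ℂ] E, S * T = T * S → ∀ v ∈ M, S v ∈ M) ∧ ∃ x ∈ M, ‖x - x₀‖ < ε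

/-- The set `C` of operators is completely metrizable for the strong* operator topology, and a Baire
space, and all its elements outside a meager set are densely hyperinvariant. -/
def TypicallyHyperinvariant {E : Type} [NormedAddCommGroup E] [NormedSpace ℂ E]
    (C : Set (E →L[ℂ] E)) : Prop :=
  C.Nonempty ∧ @IsCompletelyMetrizableSpace C (SOTStar C) ∧ @BaireSpace C (SOTStar C) ∧
    {T : C | DenselyHyperinvariant (T : E →L[ℂ] E)} ∈ @residual C (SOTStar C)

/-- **Typical contractions, typical real contractions and typical positive contractions of `L_p(μ)`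
have nontrivial closed hyperinvariant subspaces**, for every separable infinite-dimensional
`L_p(μ)`, `1 < p < ∞`. -/
theorem result [Fact (1 ≤ p)] (hp : 1 < p) (hp' : p ≠ ∞)
    (hsep : SeparableSpace (Lp ℂ p μ)) (hinf : ¬ FiniteDimensional ℂ (Lp ℂ p μ))
    (Q : Lp ℂ p μ → Prop) (hQ : (∀ f, Q f) ∨ Q = IsReal ∨ Q = IsNonneg) :
    TypicallyHyperinvariant (ContrPres Q) := by
  obtain ⟨D, hD, hD0⟩ := Pool.Agent.Q89.HL.exists_disjoint hp' hinf
  rcases hQ with hQ | rfl | rfl
  · have e : ContrPres Q = Pool.Agent.Q89.HL.Cls μ p Set.univ := by
      ext T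
      constructor
      · exact fun h => ⟨h.1, fun f _ => Filter.Eventually.of_forall fun ω => trivial⟩
      · exact fun h => ⟨h.1, fun f _ => hQ _⟩
    rw [e]
    exact Pool.Agent.Q89.HL.typ_lp hp hp' hsep hD hD0 Pool.Agent.Q89.HL.goodK_univ
  · exact Pool.Agent.Q89.HL.typ_lp hp hp' hsep hD hD0 Pool.Agent.Q89.HL.goodK_real
  · exact Pool.Agent.Q89.HL.typ_lp hp hp' hsep hD hD0 Pool.Agent.Q89.HL.goodK_pos

end Pool.Agent.Results.MP_5ac32f_an.PositiveContractionsLp
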